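import Pool.Agent.P8H33.EK.Nrm

set_option autoImplicit false

/-! Project EK, package DES. -/

open Polynomial NumberField IsDedekindDomain
open scoped Classical

namespace Pool.Agent.P8H33.EK

open Pool.Agent.P8H15.EK
open Pool.Agent.N783.PF (IsGen Lat fF Bd)
open Pool.Agent.P8H15.BR (el InR exists_el el_mul el_inj el_add el_sub el_neg)
open Pool.Agent.N61.PF (pol)

section

variable {F K L M : Type} [Field F] [NumberField F] [Field K] [NumberField K] [Field L]
  [NumberField L] [Field M] [NumberField M] [Algebra F K] [Algebra F L] [Algebra K M] [Algebra L M]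

/-- the norm of the extension of an element of `L` -/
theorem norm_ext {θ : L} {a b : 𝓞 F} (hL : IsGen 1 (pol a b) θ)
    (hM : IsGen 1 (pol (algebraMap (𝓞 F) (𝓞 K) a) (algebraMap (𝓞 F) (𝓞 K) b)) (algebraMap L M θ))
    (hc : ∀ x : F, algebraMap K M (algebraMap F K x) = algebraMap L M (algebraMap F L x)) (α : L) :
    Algebra.norm K (algebraMap L M α) = algebraMap F K (Algebra.norm F α) := by
  obtain ⟨p, q, r, rfl⟩ := exists_el hL α
  have h1 : algebraMap L M (el θ p q r) =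
      el (algebraMap L M θ) (algebraMap F K p) (algebraMap F K q) (algebraMap F K r) := by
    simp only [el, map_add, map_mul, map_pow, hc]
  rw [h1, norm_el hM (fF_pol _ _), norm_el hL (fF_pol _ _), map_nf]
  rfl

/-- the norm commutes with the automorphisms -/
theorem norm_tau {τ : Gal(K/F) →* Gal(M/L)} {θ : L} {a b : 𝓞 F}
    (hM : IsGen 1 (pol (algebraMap (𝓞 F) (𝓞 K) a) (algebraMap (𝓞 F) (𝓞 K) b)) (algebraMap L M θ))
    (hT : Tow τ) (σ : Gal(K/F)) (z : M) :
    Algebra.norm K (τ σ z) = σ (Algebra.norm K z) := by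
  obtain ⟨p, q, r, rfl⟩ := exists_el hM z
  have h1 : τ σ (el (algebraMap L M θ) p q r) = el (algebraMap L M θ) (σ p) (σ q) (σ r) := by
    simp only [el, map_add, map_mul, map_pow, hT.act, AlgEquiv.commutes]
  rw [h1, norm_el hM (fF_pol _ _), norm_el hM (fF_pol _ _)]
  have h2 := map_nf (σ : K →+* K) ((algebraMap (𝓞 F) (𝓞 K) a : 𝓞 K) : K)
    ((algebraMap (𝓞 F) (𝓞 K) b : 𝓞 K) : K) p q r
  have ha : (σ : K →+* K) ((algebraMap (𝓞 F) (𝓞 K) a : 𝓞 K) : K) =
      ((algebraMap (𝓞 F) (𝓞 K) a : 𝓞 K) : K) := σ.commutes (a : F)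
  have hb : (σ : K →+* K) ((algebraMap (𝓞 F) (𝓞 K) b : 𝓞 K) : K) =
      ((algebraMap (𝓞 F) (𝓞 K) b : 𝓞 K) : K) := σ.commutes (b : F)
  rw [ha, hb] at h2
  exact h2.symm

/-- the norm of `x - θ` -/
theorem norm_pt {θ : L} {a b : 𝓞 F}
    (hM : IsGen 1 (pol (algebraMap (𝓞 F) (𝓞 K) a) (algebraMap (𝓞 F) (𝓞 K) b)) (algebraMap L M θ))
    (x : K) : Algebra.norm K (algebraMap K M x - algebraMap L M θ) =
      x ^ 3 + algebraMap F K a * x + algebraMap F K b := by
  have h1 : algebraMap K M x - algebraMap L M θ = el (algebraMap L M θ) x (-1) 0 := by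
    simp only [el, map_neg, map_one, map_zero]
    ring
  rw [h1, norm_el hM (fF_pol _ _)]
  have ha : ((algebraMap (𝓞 F) (𝓞 K) a : 𝓞 K) : K) = algebraMap F K a := rfl
  have hb : ((algebraMap (𝓞 F) (𝓞 K) b : 𝓞 K) : K) = algebraMap F K b := rfl
  rw [ha, hb]
  simp only [nf]
  ring

/-- `x ≠ θ` -/
theorem pt_ne {θ : L} {a b : 𝓞 F}
    (hM : IsGen 1 (pol (algebraMap (𝓞 F) (𝓞 K) a) (algebraMap (𝓞 F) (𝓞 K) b)) (algebraMap L M θ))
    (x : K) : algebraMap K M x - algebraMap L M θ ≠ 0 := by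
  intro h
  have h1 : el (algebraMap L M θ) x (-1) 0 = el (algebraMap L M θ) (0 : K) 0 0 := by
    have : el (algebraMap L M θ) x (-1) 0 = algebraMap K M x - algebraMap L M θ := by
      simp only [el, map_neg, map_one, map_zero]
      ring
    rw [this, h]
    simp [el]
  have := (el_inj hM (fF_pol _ _) h1).2.1
  norm_num at this

theorem norm_neg3 (hd : Module.finrank K M = 3) (z : M) :
    Algebra.norm K (-z) = - Algebra.norm K z := by
  have h1 : -z = algebraMap K M (-1) * z := by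
    rw [map_neg, map_one]; ring
  rw [h1, map_mul, Algebra.norm_algebraMap, hd]
  ring

end

theorem des : S_DES := by
  intro F K L M _ _ _ _ _ _ _ _ _ _ _ _ _ τ θ a b hL hM hT x y hxy hβ
  have hd : Module.finrank K M = 3 := hM.rank
  obtain ⟨α₀, hα₀⟩ : ∃ α₀ : M, α₀ = algebraMap K M x - algebraMap L M θ := ⟨_, rfl⟩
  have hα0 : α₀ ≠ 0 := by rw [hα₀]; exact pt_ne hM x
  have hN0 : Algebra.norm K α₀ = y ^ 2 := by
    rw [hα₀, norm_pt hM x, hxy]
  have hy : y ≠ 0 := by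
    intro hy
    rw [hy] at hN0
    apply hα0
    apply (Algebra.norm_eq_zero_iff (R := K)).1
    rw [hN0]
    ring
  have hτα : ∀ σ : Gal(K/F), τ σ α₀ = algebraMap K M (σ x) - algebraMap L M θ := by
    intro σ
    rw [hα₀, map_sub, hT.act, AlgEquiv.commutes]
  -- the normalised square roots
  have hex : ∀ σ : Gal(K/F), ∃ β : M, τ σ α₀ = β ^ 2 * α₀ ∧ Algebra.norm K β * y = σ y := by
    intro σ
    obtain ⟨β, h⟩ := hβ σ
    rw [← hτα, ← hα₀] at h
    have h2 : (Algebra.norm K β * y) ^ 2 = (σ y) ^ 2 := by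
      have h3 := congrArg (Algebra.norm K) h
      rw [norm_tau hM hT, hN0, map_mul, map_pow, hN0, map_pow] at h3
      rw [h3]
      ring
    rcases sq_eq_sq_iff_eq_or_eq_neg.1 h2 with h3 | h3
    · exact ⟨β, h, h3⟩
    · refine ⟨-β, by rw [h]; ring, ?_⟩
      rw [norm_neg3 hd]
      linear_combination -h3
  choose β hβ1 hβ2 using hex
  have hσy : ∀ σ : Gal(K/F), σ y ≠ 0 := fun σ h => hy (by simpa using h)
  have hβ0 : ∀ σ, β σ ≠ 0 := by
    intro σ h
    have := hβ2 σ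
    rw [h, Algebra.norm_zero, zero_mul] at this
    exact hσy σ this.symm
  have hτ0 : ∀ (σ : Gal(K/F)) (z : M), z ≠ 0 → τ σ z ≠ 0 := by
    intro σ z hz h
    exact hz (by simpa using h)
  -- the cocycle relation
  have hcoc : ∀ ρ σ : Gal(K/F), β (ρ * σ) = β ρ * τ ρ (β σ) := by
    intro ρ σ
    have hτm : ∀ z : M, τ (ρ * σ) z = τ ρ (τ σ z) := by
      intro z
      rw [map_mul]
      rfl
    have h1 : β (ρ * σ) ^ 2 = (β ρ * τ ρ (β σ)) ^ 2 := by
      apply mul_right_cancel₀ hα0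
      rw [← hβ1 (ρ * σ), hτm, hβ1 σ, map_mul, hβ1 ρ, map_pow]
      ring
    have h2 : Algebra.norm K (β (ρ * σ)) = Algebra.norm K (β ρ * τ ρ (β σ)) := by
      apply mul_right_cancel₀ hy
      rw [hβ2 (ρ * σ), map_mul, norm_tau hM hT, AlgEquiv.mul_apply, ← hβ2 σ, map_mul]
      rw [← hβ2 ρ]
      ring
    rcases sq_eq_sq_iff_eq_or_eq_neg.1 h1 with h3 | h3
    · exact h3
    · exfalso
      rw [h3, norm_neg3 hd] at h2
      have h4 : Algebra.norm K (β ρ * τ ρ (β σ)) ≠ 0 := by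
        rw [Ne, Algebra.norm_eq_zero_iff]
        exact mul_ne_zero (hβ0 _) (hτ0 _ _ (hβ0 _))
      apply h4
      linear_combination -h2 / 2
  -- Hilbert 90
  have hinj : Function.Injective (fun σ : Gal(K/F) => ((τ σ : M →+* M) : M →* M)) := by
    intro σ ρ h
    ext z
    apply (algebraMap K M).injective
    rw [← hT.act, ← hT.act]
    exact DFunLike.congr_fun h (algebraMap K M z)
  have hli : LinearIndependent M (fun σ : Gal(K/F) => (((τ σ : M →+* M) : M →* M) : M → M)) :=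
    (linearIndependent_monoidHom M M).comp _ hinj
  obtain ⟨z, hz⟩ : ∃ z : M, ∑ σ : Gal(K/F), β σ * τ σ z ≠ 0 := by
    by_contra hcon
    push Not at hcon
    have h1 := Fintype.linearIndependent_iff.1 hli β (by
      funext z
      rw [Finset.sum_apply]
      simpa using hcon z) 1
    exact hβ0 1 h1
  obtain ⟨γ', hγ'⟩ : ∃ γ' : M, γ' = ∑ σ : Gal(K/F), β σ * τ σ z := ⟨_, rfl⟩
  rw [← hγ'] at hz
  have hτγ : ∀ ρ : Gal(K/F), β ρ * τ ρ γ' = γ' := by
    intro ρ
    rw [hγ', map_sum, Finset.mul_sum]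
    rw [← Equiv.sum_comp (Equiv.mulLeft ρ) (fun σ => β σ * τ σ z)]
    refine Finset.sum_congr rfl fun σ _ => ?_
    rw [Equiv.coe_mulLeft, hcoc, map_mul, map_mul (τ)]
    show _ = β ρ * (τ ρ) (β σ) * (τ ρ (τ σ z))
    ring
  have hγfix : ∀ ρ : Gal(K/F), τ ρ (α₀ * γ' ^ 2) = α₀ * γ' ^ 2 := by
    intro ρ
    have h1 := hτγ ρ
    rw [map_mul, map_pow, hβ1]
    calc β ρ ^ 2 * α₀ * τ ρ γ' ^ 2 = α₀ * (β ρ * τ ρ γ') ^ 2 := by ring
      _ = α₀ * γ' ^ 2 := by rw [h1]
  obtain ⟨α, hα⟩ := hT.fix _ hγfix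
  have hγinv : γ'⁻¹ ≠ 0 := inv_ne_zero hz
  refine ⟨α, γ'⁻¹, ?_, hγinv, ?_, ?_⟩
  · intro h
    rw [h, map_zero] at hα
    exact mul_ne_zero hα0 (pow_ne_zero 2 hz) hα.symm
  · rw [← hα₀, hα]
    field_simp
  · -- the norm
    have h1 : algebraMap F K (Algebra.norm F α) = (y * Algebra.norm K γ') ^ 2 := by
      rw [← norm_ext hL hM hT.comp, hα, map_mul, map_pow, hN0]
      ring
    have h2 : ∀ σ : Gal(K/F), σ (y * Algebra.norm K γ') = y * Algebra.norm K γ' := by
      intro σ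
      rw [map_mul, ← norm_tau hM hT, ← hβ2 σ]
      have h3 := congrArg (Algebra.norm K) (hτγ σ)
      rw [map_mul] at h3
      rw [← h3]
      rw [norm_tau hM hT] at h3 ⊢
      linear_combination (y * Algebra.norm K (β σ) ) * 0
    have h3 : y * Algebra.norm K γ' ∈ Set.range (algebraMap F K) := by
      have := (IsGalois.mem_bot_iff_fixed (F := F) (E := K) (y * Algebra.norm K γ')).2 h2
      rwa [IntermediateField.mem_bot] at this
    obtain ⟨m, hm⟩ := h3
    refine ⟨m, ?_⟩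
    apply (algebraMap F K).injective
    rw [h1, ← hm, map_mul]
    ring

end Pool.Agent.P8H33.EK
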