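import Pool.Agent.P8H15.EK.Stm

set_option autoImplicit false

/-! Project EK, package VAL. -/

open Polynomial NumberField IsDedekindDomain
open scoped Classical

namespace Pool.Agent.P8H33.EK

open Pool.Agent.P8H15.EK
open Pool.Agent.N783.PF (IsGen Lat fF Bd)
open Pool.Agent.N61.PF (pol)

section ram

variable {k K : Type} [Field k] [NumberField k] [Field K] [NumberField K] [Algebra k K]

/-- the order of the inertia group -/
theorem card_inertia [IsGalois k K] (v : HeightOneSpectrum (𝓞 k)) (P : HeightOneSpectrum (𝓞 K))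
    [hover : P.asIdeal.LiesOver v.asIdeal] :
    Nat.card (P.asIdeal.inertia Gal(K/k)) = v.asIdeal.ramificationIdx' P.asIdeal := by
  have hPp : P.asIdeal.IsPrime := P.isPrime
  have hIprime : v.asIdeal.IsPrime := v.isPrime
  have hI0 : v.asIdeal ≠ ⊥ := v.ne_bot
  have hImax : v.asIdeal.IsMaximal := v.isMaximal
  have hfin : Finite (𝓞 k ⧸ v.asIdeal) := Ring.HasFiniteQuotients.finiteQuotient hI0
  have hcard : Nat.card (P.asIdeal.inertia Gal(K/k)) = Ideal.ramificationIdxIn v.asIdeal (𝓞 K) :=
    Ideal.card_inertia_eq_ramificationIdxIn v.asIdeal P.asIdeal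
  have h1 : Ideal.ramificationIdxIn v.asIdeal (𝓞 K) = P.asIdeal.ramificationIdx (𝓞 k) :=
    Ideal.ramificationIdxIn_eq_ramificationIdx v.asIdeal P.asIdeal Gal(K/k)
  have h2 : v.asIdeal.ramificationIdx' P.asIdeal = P.asIdeal.ramificationIdx (𝓞 k) :=
    Ideal.ramificationIdx'_eq_ramificationIdx v.asIdeal P.asIdeal hI0
  rw [hcard, h1, h2]

/-- not ramified: the index is one -/
theorem idx_one (v : HeightOneSpectrum (𝓞 k)) (P : HeightOneSpectrum (𝓞 K))
    [hover : P.asIdeal.LiesOver v.asIdeal] (hR : ¬ RamIn K v) :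
    v.asIdeal.ramificationIdx' P.asIdeal = 1 := by
  have h1 : v.asIdeal.ramificationIdx' P.asIdeal < 2 := by
    apply Ideal.ramificationIdx'_lt
    intro hcon
    apply hR
    refine ⟨P, ?_, hcon⟩
    intro z hz
    have := hover.over
    rw [this] at hz
    exact hz
  have h2 : v.asIdeal.ramificationIdx' P.asIdeal ≠ 0 :=
    Ideal.IsDedekindDomain.ramificationIdx'_ne_zero_of_liesOver P.asIdeal v.ne_bot
  omega

end ram

section two

variable {K : Type} [Field K] [NumberField K]

theorem lt_one_iff_exp (x : WithZero (Multiplicative ℤ)) : x < 1 ↔ x ≤ WithZero.exp (-1) := by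
  rcases eq_or_ne x 0 with rfl | hx
  · simp
  · rw [← WithZero.exp_log hx, ← WithZero.exp_zero, WithZero.exp_lt_exp, WithZero.exp_le_exp]
    omega

theorem sq_le_exp {x : WithZero (Multiplicative ℤ)} (h : x < 1) : x ^ 2 ≤ WithZero.exp (-2) := by
  have h1 := (lt_one_iff_exp x).1 h
  calc x ^ 2 = x * x := sq x
    _ ≤ WithZero.exp (-1) * WithZero.exp (-1) := mul_le_mul' h1 h1
    _ = WithZero.exp (-2) := by rw [← WithZero.exp_add]; norm_num

end two

theorem val : S_VAL := by
  intro F K L M _ _ _ _ _ _ _ _ _ _ _ _ _ τ θ a b hL hM hT x y hxy α γ hα hγ hxα v w hvw hR hSq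
  -- the primes
  have hwmax : w.asIdeal.IsMaximal := w.isMaximal
  obtain ⟨P, hPmax, hPw⟩ :=
    Ideal.exists_maximal_ideal_liesOver_of_isIntegral (S := 𝓞 M) w.asIdeal
  have hP0 : P ≠ ⊥ := Ideal.ne_bot_of_liesOver_of_ne_bot w.ne_bot P
  obtain ⟨Q, hQ⟩ : ∃ Q : HeightOneSpectrum (𝓞 M), Q.asIdeal = P := ⟨⟨P, hPmax.isPrime, hP0⟩, rfl⟩
  have hQw : Q.asIdeal.LiesOver w.asIdeal := by rw [hQ]; exact hPw
  obtain ⟨p, hp⟩ : ∃ p : HeightOneSpectrum (𝓞 K), p = Q.under (𝓞 K) := ⟨_, rfl⟩
  have hQp : Q.asIdeal.LiesOver p.asIdeal := by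
    rw [hp]
    exact ⟨rfl⟩
  have hcompO : ∀ z : 𝓞 F, algebraMap (𝓞 K) (𝓞 M) (algebraMap (𝓞 F) (𝓞 K) z) =
      algebraMap (𝓞 L) (𝓞 M) (algebraMap (𝓞 F) (𝓞 L) z) := by
    intro z
    apply RingOfIntegers.ext
    exact hT.comp (z : F)
  have hpv : p.asIdeal.LiesOver v.asIdeal := by
    have h1 : v.asIdeal ≤ Ideal.comap (algebraMap (𝓞 F) (𝓞 K)) p.asIdeal := by
      intro z hz
      have h2 : algebraMap (𝓞 F) (𝓞 L) z ∈ w.asIdeal := hvw z hz
      have h3 : algebraMap (𝓞 L) (𝓞 M) (algebraMap (𝓞 F) (𝓞 L) z) ∈ Q.asIdeal := by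
        have := hQw.over
        rw [this] at h2
        exact h2
      rw [← hcompO] at h3
      rw [hp]
      exact h3
    have h2 : Ideal.comap (algebraMap (𝓞 F) (𝓞 K)) p.asIdeal ≠ ⊤ :=
      Ideal.comap_ne_top _ p.isPrime.ne_top
    exact ⟨v.isMaximal.eq_of_le h2 h1⟩
  -- Galois
  have hfix : IntermediateField.fixedField τ.range = (⊥ : IntermediateField L M) := by
    rw [eq_bot_iff]
    intro z hz
    rw [IntermediateField.mem_fixedField_iff] at hz
    obtain ⟨x, hx⟩ := hT.fix z (fun σ => hz (τ σ) ⟨σ, rfl⟩)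
    exact IntermediateField.mem_bot.2 ⟨x, hx⟩
  have hfixt : IntermediateField.fixedField (⊤ : Subgroup Gal(M/L)) = (⊥ : IntermediateField L M) := by
    rw [eq_bot_iff, ← hfix]
    exact IntermediateField.fixedField_antitone le_top
  have hGal : IsGalois L M := IsGalois.of_fixedField_eq_bot L M hfixt
  have hsurj : ∀ g : Gal(M/L), ∃ σ, τ σ = g := by
    intro g
    have h1 : τ.range = ⊤ := by
      rw [← IntermediateField.fixingSubgroup_fixedField τ.range, hfix,
        IntermediateField.fixingSubgroup_bot]
    have h2 : g ∈ τ.range := by rw [h1]; trivial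
    exact h2
  -- the inertia group is trivial
  have he1 : v.asIdeal.ramificationIdx' p.asIdeal = 1 := idx_one v p hR
  have hin : ∀ σ : Gal(K/F), (∀ z : 𝓞 K, σ • z - z ∈ p.asIdeal) → σ = 1 := by
    intro σ hσ
    have hc := card_inertia v p
    rw [he1] at hc
    have h4 : Subsingleton (p.asIdeal.inertia Gal(K/F)) := by
      rw [← Finite.card_le_one_iff_subsingleton]
      exact hc.le
    have h5 := Subsingleton.elim (⟨σ, hσ⟩ : p.asIdeal.inertia Gal(K/F)) 1
    exact congrArg Subtype.val h5
  have he2 : w.asIdeal.ramificationIdx' Q.asIdeal = 1 := by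
    rw [← card_inertia w Q]
    rw [Nat.card_eq_one_iff_unique]
    refine ⟨⟨?_⟩, ⟨1⟩⟩
    have key : ∀ g : Q.asIdeal.inertia Gal(M/L), g = 1 := by
      rintro ⟨g, hg⟩
      obtain ⟨σ, rfl⟩ := hsurj g
      have h1 : σ = 1 := by
        apply hin
        intro z
        have h2 : τ σ • (algebraMap (𝓞 K) (𝓞 M) z) - algebraMap (𝓞 K) (𝓞 M) z ∈ Q.asIdeal := hg _
        have h3 : τ σ • (algebraMap (𝓞 K) (𝓞 M) z) = algebraMap (𝓞 K) (𝓞 M) (σ • z) := by
          apply RingOfIntegers.ext
          exact hT.act σ (z : K)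
        rw [h3, ← map_sub] at h2
        rw [hp]
        exact h2
      subst h1
      apply Subtype.ext
      simp
    intro g g'
    rw [key g, key g']
  -- valuations
  obtain ⟨e, he⟩ : ∃ e : ℕ, e = p.asIdeal.ramificationIdx' Q.asIdeal := ⟨_, rfl⟩
  have he0 : e ≠ 0 := by
    rw [he]
    exact Ideal.IsDedekindDomain.ramificationIdx'_ne_zero_of_liesOver Q.asIdeal p.ne_bot
  have hV : ∀ z : K, p.valuation K z ^ e = Q.valuation M (algebraMap K M z) := by
    intro z
    rw [he]
    exact HeightOneSpectrum.valuation_liesOver M p Q z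
  have hW : ∀ z : L, w.valuation L z = Q.valuation M (algebraMap L M z) := by
    intro z
    have := HeightOneSpectrum.valuation_liesOver M w Q z
    rwa [he2, pow_one] at this
  have hU : ∀ z : F, v.valuation F z = p.valuation K (algebraMap F K z) := by
    intro z
    have := HeightOneSpectrum.valuation_liesOver K v p z
    rwa [he1, pow_one] at this
  rw [hW]
  -- it is enough that the valuation of `x - θ` is a square
  suffices hs : IsSquare (Q.valuation M (algebraMap K M x - algebraMap L M θ)) by
    rw [hxα, map_mul, map_pow] at hs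
    have hγ0 : Q.valuation M γ ≠ 0 := (Valuation.ne_zero_iff _).2 hγ
    have h2 := hs.div (IsSquare.sq (Q.valuation M γ))
    rwa [mul_div_cancel_right₀ _ (pow_ne_zero 2 hγ0)] at h2
  have hθ : IsIntegral ℤ θ := by
    have h1 := hL.root
    have h2 : aeval θ (pol a b) = 0 := by
      rw [fF, aeval_map_algebraMap] at h1
      exact h1
    have h3 : IsIntegral (𝓞 F) θ := ⟨pol a b, Pool.Agent.N61.PF.pol_monic a b, h2⟩
    exact isIntegral_trans θ h3
  obtain ⟨t, ht⟩ : ∃ t : 𝓞 M, (t : M) = algebraMap L M θ :=
    ⟨⟨algebraMap L M θ, hθ.map (IsScalarTower.toAlgHom ℤ L M)⟩, rfl⟩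
  have hVt : Q.valuation M (algebraMap L M θ) ≤ 1 := by
    rw [← ht]
    exact Q.valuation_le_one t
  have hUa : p.valuation K (algebraMap F K a) ≤ 1 :=
    p.valuation_le_one (K := K) (algebraMap (𝓞 F) (𝓞 K) a)
  have hUb : p.valuation K (algebraMap F K b) ≤ 1 :=
    p.valuation_le_one (K := K) (algebraMap (𝓞 F) (𝓞 K) b)
  have hVa : Q.valuation M (algebraMap K M (algebraMap F K a)) ≤ 1 := by
    rw [← hV]
    exact pow_le_one' hUa e
  rcases lt_or_ge 1 (p.valuation K x) with hx1 | hx1
  · -- `x` is not integral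
    have h1 : p.valuation K y ^ 2 = p.valuation K x ^ 3 := by
      rw [← map_pow, hxy]
      have hx3 : p.valuation K (x ^ 3) = p.valuation K x ^ 3 := map_pow _ _ _
      have h3 : p.valuation K (algebraMap F K a * x) < p.valuation K (x ^ 3) := by
        rw [map_mul, hx3]
        calc p.valuation K (algebraMap F K a) * p.valuation K x ≤ 1 * p.valuation K x :=
              mul_le_mul_left hUa _
          _ = p.valuation K x ^ 1 := by rw [one_mul, pow_one]
          _ < p.valuation K x ^ 3 := pow_lt_pow_right₀ hx1 (by norm_num)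
      have h4 : p.valuation K (algebraMap F K b) < p.valuation K (x ^ 3) := by
        rw [hx3]
        exact hUb.trans_lt (one_lt_pow₀ hx1 (by norm_num))
      rw [add_assoc]
      rw [Valuation.map_add_eq_of_lt_left, hx3]
      exact (Valuation.map_add_lt _ h3 h4)
    have hx0 : p.valuation K x ≠ 0 := fun h => by rw [h] at hx1; exact absurd hx1 (by simp)
    have h2 : p.valuation K x = (p.valuation K y / p.valuation K x) ^ 2 := by
      rw [div_pow, h1, pow_succ, mul_div_cancel_left₀ _ (pow_ne_zero 2 hx0)]
    have h3 : 1 < Q.valuation M (algebraMap K M x) := by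
      rw [← hV]
      exact one_lt_pow₀ hx1 he0
    have h4 : Q.valuation M (algebraMap K M x - algebraMap L M θ) =
        Q.valuation M (algebraMap K M x) := by
      apply Valuation.map_sub_eq_of_lt_left
      exact hVt.trans_lt h3
    rw [h4, ← hV, h2, ← pow_mul, mul_comm 2 e, pow_mul]
    exact IsSquare.sq _
  · -- `x` is integral
    have hVx : Q.valuation M (algebraMap K M x) ≤ 1 := by
      rw [← hV]
      exact pow_le_one' hx1 e
    obtain ⟨X, hX⟩ : ∃ X, X = algebraMap K M x := ⟨_, rfl⟩
    obtain ⟨T, hTT⟩ : ∃ T, T = algebraMap L M θ := ⟨_, rfl⟩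
    obtain ⟨A, hA⟩ : ∃ A, A = algebraMap K M (algebraMap F K a) := ⟨_, rfl⟩
    have hroot : T ^ 3 + A * T + algebraMap K M (algebraMap F K b) = 0 := by
      have h1 := hM.root
      have h2 : aeval (algebraMap L M θ)
          (pol (algebraMap (𝓞 F) (𝓞 K) a) (algebraMap (𝓞 F) (𝓞 K) b)) = 0 := by
        rw [fF, aeval_map_algebraMap] at h1
        exact h1
      simp only [pol, map_add, map_mul, map_pow, aeval_X, aeval_C] at h2
      rw [hTT, hA]
      exact h2
    have hprod : (X - T) * (X ^ 2 + T * X + T ^ 2 + A) = (algebraMap K M y) ^ 2 := by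
      have h1 := congrArg (algebraMap K M) hxy
      simp only [map_add, map_mul, map_pow] at h1
      rw [← hX, ← hA] at h1
      rw [h1]
      linear_combination hroot * (-1)
    rw [← hX] at hVx ⊢
    rw [← hTT] at hVt ⊢
    rw [← hA] at hVa
    have hVp : Q.valuation M (X - T) ≤ 1 :=
      (Valuation.map_sub _ _ _).trans (max_le hVx hVt)
    have hVq : Q.valuation M (X ^ 2 + T * X + T ^ 2 + A) ≤ 1 := by
      refine (Valuation.map_add _ _ _).trans (max_le ?_ hVa)
      refine (Valuation.map_add _ _ _).trans (max_le ?_ ?_)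
      · refine (Valuation.map_add _ _ _).trans (max_le ?_ ?_)
        · rw [map_pow]; exact pow_le_one' hVx 2
        · rw [map_mul]; exact mul_le_one' hVt hVx
      · rw [map_pow]; exact pow_le_one' hVt 2
    have hVpq := congrArg (Q.valuation M) hprod
    rw [map_mul, map_pow] at hVpq
    rcases hVq.eq_or_lt with hq | hq
    · rw [hq, mul_one] at hVpq
      rw [hVpq]
      exact IsSquare.sq _
    · rcases hVp.eq_or_lt with hp1 | hp1
      · rw [hp1]
        exact IsSquare.one
      · exfalso
        -- `y` is in the prime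
        have hVy : Q.valuation M (algebraMap K M y) < 1 := by
          have h1 : Q.valuation M (algebraMap K M y) ^ 2 < 1 := by
            rw [← hVpq]
            exact mul_lt_one_of_lt_of_le hp1 hq.le
          exact (pow_lt_one_iff_of_nonneg zero_le' (by norm_num)).1 h1
        have hUy : p.valuation K y < 1 := by
          rw [← hV] at hVy
          exact (pow_lt_one_iff_of_nonneg zero_le' he0).1 hVy
        have hVd : Q.valuation M (algebraMap K M (3 * x ^ 2 + algebraMap F K a)) < 1 := by
          have h1 : algebraMap K M (3 * x ^ 2 + algebraMap F K a) =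
              (X ^ 2 + T * X + T ^ 2 + A) + (X - T) * (2 * X + T) := by
            simp only [map_add, map_mul, map_pow, map_ofNat]
            rw [← hX, ← hA]
            ring
          rw [h1]
          apply Valuation.map_add_lt _ hq
          rw [map_mul]
          apply mul_lt_one_of_lt_of_le hp1
          refine (Valuation.map_add _ _ _).trans (max_le ?_ hVt)
          rw [map_mul]
          refine mul_le_one' ?_ hVx
          exact Q.valuation_le_one (K := M) (2 : 𝓞 M)
        have hUd : p.valuation K (3 * x ^ 2 + algebraMap F K a) < 1 := by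
          rw [← hV] at hVd
          exact (pow_lt_one_iff_of_nonneg zero_le' he0).1 hVd
        -- the discriminant
        have hdisc : algebraMap F K ((4 * a ^ 3 + 27 * b ^ 2 : 𝓞 F) : F) =
            (4 * (3 * x ^ 2 + algebraMap F K a) - 9 * x ^ 2) * (3 * x ^ 2 + algebraMap F K a) ^ 2 +
              (108 * x ^ 3 + 27 * y ^ 2 - 54 * x * (3 * x ^ 2 + algebraMap F K a)) * y ^ 2 := by
          have h1 : algebraMap F K ((4 * a ^ 3 + 27 * b ^ 2 : 𝓞 F) : F) =
              4 * (algebraMap F K a) ^ 3 + 27 * (algebraMap F K b) ^ 2 := by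
            simp only [map_add, map_mul, map_pow, map_ofNat]
          rw [h1]
          have hb : algebraMap F K b = y ^ 2 - x ^ 3 - algebraMap F K a * x := by
            linear_combination -hxy
          rw [hb]
          ring
        have hint : ∀ z : K, p.valuation K z ≤ 1 → ∀ n : ℕ, p.valuation K ((n : K) * z) ≤ 1 := by
          intro z hz n
          rw [map_mul]
          refine mul_le_one' ?_ hz
          have h0 : p.valuation K (algebraMap (𝓞 K) K (n : 𝓞 K)) ≤ 1 :=
            p.valuation_le_one (K := K) (n : 𝓞 K)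
          rwa [map_natCast (algebraMap (𝓞 K) K) n] at h0
        have hUd2 : p.valuation K (algebraMap F K ((4 * a ^ 3 + 27 * b ^ 2 : 𝓞 F) : F)) ≤
            WithZero.exp (-2) := by
          have hx2 : p.valuation K (x ^ 2) ≤ 1 := by rw [map_pow]; exact pow_le_one' hx1 2
          have hx3 : p.valuation K (x ^ 3) ≤ 1 := by rw [map_pow]; exact pow_le_one' hx1 3
          have hy2 : p.valuation K (y ^ 2) ≤ 1 := by rw [map_pow]; exact pow_le_one' hUy.le 2
          rw [hdisc]
          refine (Valuation.map_add _ _ _).trans (max_le ?_ ?_)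
          · rw [map_mul, map_pow]
            calc _ ≤ 1 * p.valuation K (3 * x ^ 2 + algebraMap F K a) ^ 2 := by
                  refine mul_le_mul_left ?_ _
                  refine (Valuation.map_sub _ _ _).trans (max_le ?_ ?_)
                  · exact_mod_cast hint _ hUd.le 4
                  · exact_mod_cast hint _ hx2 9
              _ ≤ WithZero.exp (-2) := by rw [one_mul]; exact sq_le_exp hUd
          · rw [map_mul, map_pow]
            calc _ ≤ 1 * p.valuation K y ^ 2 := by
                  refine mul_le_mul_left ?_ _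
                  refine (Valuation.map_sub _ _ _).trans (max_le ?_ ?_)
                  · refine (Valuation.map_add _ _ _).trans (max_le ?_ ?_)
                    · exact_mod_cast hint _ hx3 108
                    · exact_mod_cast hint _ hy2 27
                  · rw [mul_assoc]
                    have : p.valuation K (x * (3 * x ^ 2 + algebraMap F K a)) ≤ 1 := by
                      rw [map_mul]
                      exact mul_le_one' hx1 hUd.le
                    exact_mod_cast hint _ this 54
              _ ≤ WithZero.exp (-2) := by rw [one_mul]; exact sq_le_exp hUy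
        rw [← hU] at hUd2
        apply hSq
        show 4 * a ^ 3 + 27 * b ^ 2 ∈ v.asIdeal ^ 2
        rw [← HeightOneSpectrum.intValuation_le_pow_iff_mem]
        rw [← HeightOneSpectrum.valuation_of_algebraMap (K := F)]
        exact hUd2

end Pool.Agent.P8H33.EK
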