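import Pool.Agent.P8H15.EK.Stm

set_option autoImplicit false

/-! Project EK: the norm form of a cubic field. -/

open Polynomial NumberField IsDedekindDomain
open scoped Classical

namespace Pool.Agent.P8H33.EK

open Pool.Agent.N783.PF (IsGen Lat fF Bd)
open Pool.Agent.P8H15.BR (el InR exists_el el_mul el_inj el_add el_sub el_neg)
open Pool.Agent.N61.PF (pol)

/-- the norm form -/
def nf {k : Type} [Field k] (A B a b c : k) : k :=
  a * ((a - A * c) * (a - A * c) + (A * b + B * c) * b) + (B * c) * (b * (a - A * c) + (A * b + B * c) * c) -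
    (B * b) * (b * b - (a - A * c) * c)

theorem map_nf {k l : Type} [Field k] [Field l] (φ : k →+* l) (A B a b c : k) :
    φ (nf A B a b c) = nf (φ A) (φ B) (φ a) (φ b) (φ c) := by
  simp only [nf, map_add, map_sub, map_mul]

section

variable {F L : Type} [Field F] [NumberField F] [Field L] [NumberField L] [Algebra F L]
variable {f : (𝓞 F)[X]} {θ : L}

theorem repr_el (hG : IsGen 1 f θ) (a b c : F) :
    (hG.basis.repr (el θ a b c) : Fin 3 → F) = ![a, b, c] := by
  have h : el θ a b c = ∑ i, (![a, b, c] : Fin (2 * 1 + 1) → F) i • hG.basis i := by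
    have e : ∑ i, (![a, b, c] : Fin (2 * 1 + 1) → F) i • hG.basis i =
        (![a, b, c] : Fin (2 * 1 + 1) → F) 0 • hG.basis 0 +
          (![a, b, c] : Fin (2 * 1 + 1) → F) 1 • hG.basis 1 +
          (![a, b, c] : Fin (2 * 1 + 1) → F) 2 • hG.basis 2 :=
      Fin.sum_univ_three (fun i : Fin 3 => (![a, b, c] : Fin (2 * 1 + 1) → F) i • hG.basis i)
    rw [e, hG.basis_apply, hG.basis_apply, hG.basis_apply]
    simp only [Algebra.smul_def, el]
    show _ = algebraMap F L a * θ ^ 0 + algebraMap F L b * θ ^ 1 + algebraMap F L c * θ ^ 2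
    ring
  rw [h]
  exact hG.basis.repr_sum_self (![a, b, c] : Fin (2 * 1 + 1) → F)

theorem norm_el (hG : IsGen 1 f θ) {A B : F} (hf : fF f = X ^ 3 + C A * X + C B) (a b c : F) :
    Algebra.norm F (el θ a b c) = nf A B a b c := by
  rw [Algebra.norm_eq_matrix_det hG.basis]
  have h0 : (hG.basis 0 : L) = el θ (1 : F) 0 0 := by
    rw [hG.basis_apply]; simp [el]
  have h1 : (hG.basis 1 : L) = el θ (0 : F) 1 0 := by
    rw [hG.basis_apply]
    show θ ^ 1 = _
    simp [el]
  have h2 : (hG.basis 2 : L) = el θ (0 : F) 0 1 := by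
    rw [hG.basis_apply]
    show θ ^ 2 = _
    simp [el]
  have hd := Matrix.det_fin_three (R := F)
    (A := (Algebra.leftMulMatrix hG.basis (el θ a b c) : Matrix (Fin 3) (Fin 3) F))
  refine (Eq.trans ?_ hd).trans ?_
  · rfl
  · have k0 : ∀ i : Fin 3, (Algebra.leftMulMatrix hG.basis (el θ a b c)) i 0 =
        (![a * 1 - B * (b * 0 + c * 0), a * 0 + b * 1 - A * (b * 0 + c * 0) - B * (c * 0),
          a * 0 + b * 0 + c * 1 - A * (c * 0)] : Fin 3 → F) i := by
      intro i
      rw [Algebra.leftMulMatrix_eq_repr_mul, h0, el_mul hG hf]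
      exact congrFun (repr_el hG _ _ _) i
    have k1 : ∀ i : Fin 3, (Algebra.leftMulMatrix hG.basis (el θ a b c)) i 1 =
        (![a * 0 - B * (b * 0 + c * 1), a * 1 + b * 0 - A * (b * 0 + c * 1) - B * (c * 0),
          a * 0 + b * 1 + c * 0 - A * (c * 0)] : Fin 3 → F) i := by
      intro i
      rw [Algebra.leftMulMatrix_eq_repr_mul, h1, el_mul hG hf]
      exact congrFun (repr_el hG _ _ _) i
    have k2 : ∀ i : Fin 3, (Algebra.leftMulMatrix hG.basis (el θ a b c)) i 2 =
        (![a * 0 - B * (b * 1 + c * 0), a * 0 + b * 0 - A * (b * 1 + c * 0) - B * (c * 1),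
          a * 1 + b * 0 + c * 0 - A * (c * 1)] : Fin 3 → F) i := by
      intro i
      rw [Algebra.leftMulMatrix_eq_repr_mul, h2, el_mul hG hf]
      exact congrFun (repr_el hG _ _ _) i
    rw [k0 0, k0 1, k0 2, k1 0, k1 1, k1 2, k2 0, k2 1, k2 2]
    simp only [Matrix.cons_val_zero, Matrix.cons_val_one, Matrix.cons_val]
    simp only [nf]
    ring

theorem fF_pol (a b : 𝓞 F) : fF (pol a b) = X ^ 3 + C (a : F) * X + C (b : F) := by
  simp [fF, pol]

end

end Pool.Agent.P8H33.EK
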